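import Mathlib
import Pool.Agent.Lib.helper4.TotOrd

namespace Pool.Agent.Results.MP_8e1749_lc.Modular

open FirstOrder FirstOrder.Language Function Pool.Agent.Lib.helper4.TotOrd

/-- Signatures: the function symbols of a first-order language, graded by arity (relation
symbols play no role in terms). -/
abbrev Sig : Type 1 := FirstOrder.Language.{0, 0}

/-- Ground terms over the function symbols of `L`; one fresh constant is added exactly when
`L` has no constant. -/
abbrev Ground (L : Sig) : Type := L.Term (PLift (IsEmpty (L.Functions 0)))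

/-- A set of rules `l → r`, stored as pairs `(l, r)` of terms with variables in `ℕ`. -/
abbrev Rules (L : Sig) : Type := Set (L.Term ℕ × L.Term ℕ)

/-- Number of occurrences of the variable `x` in a term. -/
def occ {L : Sig} (x : ℕ) : L.Term ℕ → ℕ
  | Term.var y => if y = x then 1 else 0
  | Term.func _ ts => ∑ i, occ x (ts i)

/-- No left-hand side is a variable and every variable of `r` occurs in `l`. -/
def IsTRS {L : Sig} (R : Rules L) : Prop :=
  ∀ p ∈ R, (∀ x, p.1 ≠ Term.var x) ∧ ∀ x, 0 < occ x p.2 → 0 < occ x p.1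

/-- Some rule has a variable with more occurrences on the right than on the left. -/
def HasDup {L : Sig} (R : Rules L) : Prop :=
  ∃ p ∈ R, ∃ x, occ x p.1 < occ x p.2

/-- Total termination: a monotonic well-ordering of the ground terms orienting all ground
instances of the rules (`lt s t` means `t > s`). -/
def TotTerm {L : Sig} (R : Rules L) : Prop :=
  ∃ lt : Ground L → Ground L → Prop, IsWellOrder (Ground L) lt ∧
    (∀ (n : ℕ) (f : L.Functions n) (ts : Fin n → Ground L) (i : Fin n) (s t : Ground L),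
      lt s t → lt (Term.func f (update ts i s)) (Term.func f (update ts i t))) ∧
    ∀ p ∈ R, ∀ σ : ℕ → Ground L, lt (p.2.subst σ) (p.1.subst σ)

/-- The union of two systems over disjoint signatures, as a system over the disjoint union of
the signatures. -/
def union {L₁ L₂ : Sig} (R₁ : Rules L₁) (R₂ : Rules L₂) : Rules (L₁.sum L₂) :=
  (fun p => ((LHom.sumInl : L₁ →ᴸ L₁.sum L₂).onTerm p.1,
      (LHom.sumInl : L₁ →ᴸ L₁.sum L₂).onTerm p.2)) '' R₁ ∪
    (fun p => ((LHom.sumInr : L₂ →ᴸ L₁.sum L₂).onTerm p.1,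
      (LHom.sumInr : L₂ →ᴸ L₁.sum L₂).onTerm p.2)) '' R₂

/-! ### Monotone algebras -/

def Model {L : Sig} (R : Rules L) (W : Type) [LinearOrder W] (S : L.Structure W) :
    Prop :=
  (∀ (n : ℕ) (f : L.Functions n) (ws : Fin n → W) (i : Fin n) (a b : W), a < b →
      S.funMap f (update ws i a) < S.funMap f (update ws i b)) ∧
    ∀ p ∈ R, ∀ v : ℕ → W, @Term.realize L W S ℕ v p.2 < @Term.realize L W S ℕ v p.1

theorem lex_app {α : Type} (r : α → α → Prop) (c : List α) :
    ∀ (a b : List α), a.length = b.length → List.Lex r a b → List.Lex r (a ++ c) (b ++ c) := by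
  intro a b hl h
  induction h with
  | nil => simp at hl
  | rel h => exact List.Lex.rel h
  | cons _ ih => exact List.Lex.cons (ih (by simpa using hl))

theorem shortlex_app {α : Type} (r : α → α → Prop) (c a b : List α) (h : List.Shortlex r a b) :
    List.Shortlex r (a ++ c) (b ++ c) := by
  rcases List.shortlex_def.mp h with h1 | h2
  · apply List.Shortlex.of_length_lt
    simp only [List.length_append]
    omega
  · exact List.Shortlex.of_lex (by simp [h2.1]) (lex_app r c a b h2.1 h2.2)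

theorem enc_update {L : Sig} {β : Type} {n : ℕ} (f : L.Functions n)
    (ts : Fin n → L.Term β) (i : Fin n) : ∃ a c, ∀ s : L.Term β,
      (Term.func f (update ts i s)).listEncode = a ++ (s.listEncode ++ c) := by
  obtain ⟨l₁, l₂, hl⟩ := List.append_of_mem (List.mem_finRange i)
  have hnd := List.nodup_finRange n
  rw [hl] at hnd
  have h1 : i ∉ l₁ := fun h => (List.nodup_append.mp hnd).2.2 i h i (by simp) rfl
  have h2 : i ∉ l₂ := (List.nodup_cons.mp (List.nodup_append.mp hnd).2.1).1
  refine ⟨Sum.inr ⟨n, f⟩ :: l₁.flatMap (fun j => (ts j).listEncode),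
    l₂.flatMap (fun j => (ts j).listEncode), fun s => ?_⟩
  have e : ∀ l : List (Fin n), i ∉ l → l.flatMap (fun j => (update ts i s j).listEncode) =
      l.flatMap (fun j => (ts j).listEncode) := by
    intro l hl
    apply List.flatMap_congr
    intro j hj
    have hji : j ≠ i := fun e => hl (e ▸ hj)
    rw [update_of_ne hji]
  rw [Term.listEncode, hl, List.flatMap_append, List.flatMap_cons, e l₁ h1, e l₂ h2, update_self]
  simp

theorem totTerm_of_model {L : Sig} (R : Rules L) (W : Type) [LinearOrder W]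
    [WellFoundedLT W] [Nonempty W] (S : L.Structure W) (h : Model R W S) : TotTerm R := by
  classical
  let w0 : W := Classical.arbitrary W
  let val : Ground L → W := fun t => @Term.realize L W S _ (fun _ => w0) t
  let r := @WellOrderingRel (PLift (IsEmpty (L.Functions 0)) ⊕ (Σ i, L.Functions i))
  have hwo : IsWellOrder _ (List.Shortlex r) :=
    { wf := List.Shortlex.wf (IsWellFounded.wf (r := r)) }
  let emb : Ground L ↪ W × List (PLift (IsEmpty (L.Functions 0)) ⊕ (Σ i, L.Functions i)) :=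
    ⟨fun t => (val t, t.listEncode), fun a b e => Term.listEncode_injective (congrArg Prod.snd e)⟩
  refine ⟨emb ⁻¹'o (Prod.Lex (· < ·) (List.Shortlex r)),
    (RelEmbedding.preimage emb _).isWellOrder, ?_, ?_⟩
  · intro n f ts i s t hst
    have hv : ∀ s, val (Term.func f (update ts i s)) =
        S.funMap f (update (fun j => val (ts j)) i (val s)) := by
      intro s
      show S.funMap f (fun j => val (update ts i s j)) = _
      congr 1
      exact Function.comp_update val ts i s
    have hst' : Prod.Lex (· < ·) (List.Shortlex r) (val s, s.listEncode) (val t, t.listEncode) :=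
      hst
    show Prod.Lex (· < ·) (List.Shortlex r) (val _, Term.listEncode _) (val _, Term.listEncode _)
    rw [Prod.lex_def] at hst' ⊢
    rcases hst' with h1 | ⟨h1, h2⟩
    · left
      simp only [hv]
      exact h.1 n f _ i _ _ h1
    · right
      simp only at h1 h2
      refine ⟨by simp only [hv, h1], ?_⟩
      obtain ⟨a, c, hac⟩ := enc_update f ts i
      simp only [hac]
      exact List.Shortlex.append_left (shortlex_app r c _ _ h2) a
  · intro p hp σ
    show Prod.Lex (· < ·) (List.Shortlex r) (val _, Term.listEncode _) (val _, Term.listEncode _)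
    apply Prod.Lex.left
    simp only [val, Term.realize_subst]
    exact h.2 p hp _

def termStr (L : Sig) : L.Structure (Ground L) :=
  ⟨fun f ts => Term.func f ts, fun _ _ => False⟩

theorem realize_termStr {L : Sig} (σ : ℕ → Ground L) (t : L.Term ℕ) :
    @Term.realize L _ (termStr L) ℕ σ t = t.subst σ := by
  induction t with
  | var => rfl
  | func f ts ih =>
    show Term.func f _ = Term.func f _
    congr 1
    funext i
    exact ih i

def sz {L : Sig} {β : Type} : L.Term β → ℕ
  | Term.var _ => 0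
  | Term.func _ ts => 1 + ∑ i, sz (ts i)

theorem model_of_totTerm {L : Sig} (R : Rules L) (h : TotTerm R) :
    ∃ (_ : LinearOrder (Ground L)) (_ : WellFoundedLT (Ground L)),
      Model R (Ground L) (termStr L) ∧
      ∀ (n : ℕ) (f : L.Functions n) (ts : Fin n → Ground L) (i : Fin n),
        ts i < (termStr L).funMap f ts := by
  classical
  obtain ⟨lt, hwo, hm, hr⟩ := h
  let lo : LinearOrder (Ground L) := linearOrderOfSTO lt
  have hwf : WellFoundedLT (Ground L) := ⟨hwo.wf⟩
  refine ⟨lo, hwf, ⟨fun n f ws i a b hab => hm n f ws i a b hab, fun p hp v => ?_⟩, ?_⟩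
  · rw [realize_termStr, realize_termStr]
    exact hr p hp v
  · intro n f ts i
    have hs : StrictMono (fun x => Term.func f (update ts i x)) := fun a b hab =>
      hm n f ts i a b hab
    have h1 : ts i ≤ Term.func f (update ts i (ts i)) := hs.le_apply
    rw [update_eq_self] at h1
    refine lt_of_le_of_ne h1 (fun e => ?_)
    have h2 := congrArg sz e
    have h3 : sz (ts i) ≤ ∑ j, sz (ts j) :=
      Finset.single_le_sum (f := fun j => sz (ts j)) (fun _ _ => Nat.zero_le _)
        (Finset.mem_univ i)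
    have h4 : sz ((termStr L).funMap f ts) = 1 + ∑ j, sz (ts j) := rfl
    omega

instance ground_nonempty (L : Sig) : Nonempty (Ground L) := by
  by_cases h : IsEmpty (L.Functions 0)
  · exact ⟨Term.var ⟨h⟩⟩
  · obtain ⟨c⟩ := not_isEmpty_iff.mp h
    exact ⟨Term.func c (fun i => i.elim0)⟩

theorem lift {L : Sig} (R : Rules L) (A W : Type) [LinearOrder A] [LinearOrder W]
    (S : L.Structure A) (h : Model R A S)
    (hsub : ∀ (n : ℕ) (f : L.Functions n) (ts : Fin n → A) (i : Fin n), ts i < S.funMap f ts)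
    (hb : Blocks (A ×ₗ ℕ) W) : ∃ S' : L.Structure W, Model R W S' := by
  obtain ⟨π, g, hπ, hg1, hg2⟩ := hb
  let ρ : W → A := fun w => (ofLex (π w)).1
  have hρ : Monotone ρ := fun a b hab => Prod.Lex.monotone_fst _ _ (hπ hab)
  let S' : L.Structure W :=
    ⟨fun {n} f w => g (toLex (S.funMap f (fun j => ρ (w j)), 0)) n w, fun _ _ => False⟩
  have hlt : ∀ (n : ℕ) (f : L.Functions n) (w : Fin n → W) (j : Fin n),
      π (w j) < toLex (S.funMap f (fun j => ρ (w j)), 0) := fun n f w j =>
    Prod.Lex.left _ _ (hsub n f (fun j => ρ (w j)) j)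
  have hcomm : ∀ (n : ℕ) (f : L.Functions n) (w : Fin n → W),
      ρ (S'.funMap f w) = S.funMap f (fun j => ρ (w j)) := fun n f w => by
    show (ofLex (π (g _ n w))).1 = _
    rw [hg1 _ n w (hlt n f w)]
    rfl
  have hrefl : ∀ a b, ρ a < ρ b → a < b := fun a b hab => hρ.reflect_lt hab
  have hreal : ∀ (v : ℕ → W) (t : L.Term ℕ),
      ρ (@Term.realize L W S' ℕ v t) = @Term.realize L A S ℕ (fun x => ρ (v x)) t := by
    intro v t
    induction t with
    | var => rfl
    | func f ts ih =>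
      show ρ (S'.funMap f _) = S.funMap f _
      rw [hcomm]
      congr 1
      funext j
      exact ih j
  refine ⟨S', fun n f ws i a b hab => ?_, fun p hp v => ?_⟩
  · have hu : ∀ c, (fun j => ρ (update ws i c j)) = update (fun j => ρ (ws j)) i (ρ c) :=
      fun c => Function.comp_update ρ ws i c
    rcases (hρ hab.le).lt_or_eq with h1 | h1
    · apply hrefl
      rw [hcomm, hcomm, hu, hu]
      exact h.1 n f _ i _ _ h1
    · have h2 := hlt n f (update ws i a)
      have h3 := hlt n f (update ws i b)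
      show g (toLex (S.funMap f (fun j => ρ (update ws i a j)), 0)) n _ <
        g (toLex (S.funMap f (fun j => ρ (update ws i b j)), 0)) n _
      rw [hu] at h2 h3
      rw [hu, hu]
      rw [h1] at h2 ⊢
      exact hg2 _ n _ _ h2 h3 (update_lt_update_iff.mpr hab)
  · apply hrefl
    rw [hreal, hreal]
    exact h.2 p hp _

theorem model_union {L₁ L₂ : Sig} (R₁ : Rules L₁) (R₂ : Rules L₂) (W : Type)
    [LinearOrder W] (S₁ : L₁.Structure W) (S₂ : L₂.Structure W) (h₁ : Model R₁ W S₁)
    (h₂ : Model R₂ W S₂) : Model (union R₁ R₂) W (@sumStructure L₁ L₂ W S₁ S₂) := by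
  constructor
  · intro n f ws i a b hab
    rcases f with f | f
    · exact h₁.1 n f ws i a b hab
    · exact h₂.1 n f ws i a b hab
  · rintro p (⟨q, hq, rfl⟩ | ⟨q, hq, rfl⟩) v
    · simp only [LHom.realize_onTerm]
      exact h₁.2 q hq v
    · simp only [LHom.realize_onTerm]
      exact h₂.2 q hq v

theorem modular (L₁ L₂ : Sig) [Countable (Σ n, L₁.Functions n)]
    [Countable (Σ n, L₂.Functions n)] (R₁ : Rules L₁) (R₂ : Rules L₂) (h₁ : TotTerm R₁)
    (h₂ : TotTerm R₂) : TotTerm (union R₁ R₂) := by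
  obtain ⟨o₁, w₁, m₁, s₁⟩ := model_of_totTerm R₁ h₁
  obtain ⟨o₂, w₂, m₂, s₂⟩ := model_of_totTerm R₂ h₂
  have c₁ : Countable (Ground L₁ ×ₗ ℕ) := inferInstanceAs (Countable (Ground L₁ × ℕ))
  have c₂ : Countable (Ground L₂ ×ₗ ℕ) := inferInstanceAs (Countable (Ground L₂ × ℕ))
  have n₁ : Nonempty (Ground L₁ ×ₗ ℕ) := inferInstanceAs (Nonempty (Ground L₁ × ℕ))
  have n₂ : Nonempty (Ground L₂ ×ₗ ℕ) := inferInstanceAs (Nonempty (Ground L₂ × ℕ))
  obtain ⟨W, oW, wW, nW, b₁, b₂⟩ := common (Ground L₁ ×ₗ ℕ) (Ground L₂ ×ₗ ℕ)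
  obtain ⟨S₁, k₁⟩ := lift R₁ _ W _ m₁ s₁ b₁
  obtain ⟨S₂, k₂⟩ := lift R₂ _ W _ m₂ s₂ b₂
  exact totTerm_of_model _ W _ (model_union R₁ R₂ W S₁ S₂ k₁ k₂)

/-! ### The counterexample with an uncountable signature -/

inductive F1 : ℕ → Type
  | c (n : ℕ) : F1 0
  | f (n : ℕ) : F1 2

inductive F2 : ℕ → Type
  | d (ξ : Om) : F2 0
  | g (ξ : Om) : F2 1
  | h (η : Om) (s : ℕ ↪ Om) (k : ℕ) : F2 2

abbrev L1 : Sig := ⟨F1, fun _ => Empty⟩
abbrev L2 : Sig := ⟨F2, fun _ => Empty⟩

def R1 : Rules L1 := Set.range fun n : ℕ =>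
  ((Term.func (L := L1) (F1.f n) ![Term.func (L := L1) (F1.c n) ![], Term.var 0],
    Term.func (L := L1) (F1.f (n + 1)) ![Term.var 0, Term.var 0]) : L1.Term ℕ × L1.Term ℕ)

def R2 : Rules L2 := Set.range fun q : Om × (ℕ ↪ Om) × ℕ =>
  ((Term.func (L := L2) (F2.h q.1 q.2.1 q.2.2)
      ![Term.func (L := L2) (F2.d (q.2.1 q.2.2)) ![], Term.func (L := L2) (F2.g (q.2.1 q.2.2)) ![Term.var 0] ],
    Term.func (L := L2) (F2.h q.1 q.2.1 (q.2.2 + 1))
      ![Term.var 0, Term.func (L := L2) (F2.g q.1) ![Term.var 0] ]) : L2.Term ℕ × L2.Term ℕ)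

theorem mono2 {W : Type} [LinearOrder W] (φ : W × W → W) (hφ : StrictMono φ) (ws : Fin 2 → W)
    (i : Fin 2) (a b : W) (hab : a < b) :
    φ (update ws i a 0, update ws i a 1) < φ (update ws i b 0, update ws i b 1) := by
  apply hφ
  fin_cases i
  · simpa using hab
  · simpa using hab

def fun1 : {n : ℕ} → F1 n → (Fin n → ℕ) → ℕ
  | _, F1.c n, _ => n
  | _, F1.f n, w => w 0 + w 1 + if n ≤ w 0 then (w 1 - n + 1) * (2 * w 1 + 1) else 0

theorem tot1 : TotTerm R1 := by
  refine totTerm_of_model R1 ℕ ⟨fun f w => fun1 f w, fun _ _ => False⟩ ⟨?_, ?_⟩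
  · intro n f ws i a b hab
    cases f with
    | c n => exact i.elim0
    | f n =>
      refine mono2 (fun p : ℕ × ℕ =>
        p.1 + p.2 + if n ≤ p.1 then (p.2 - n + 1) * (2 * p.2 + 1) else 0) ?_ ws i a b hab
      rintro ⟨u, v⟩ ⟨u', v'⟩ h
      have h1 : u ≤ u' := h.le.1
      have h2 : v ≤ v' := h.le.2
      have h3 : u + v < u' + v' := by
        by_contra hc
        exact h.ne (Prod.ext (by simp only; omega) (by simp only; omega))
      have h4 : (v - n + 1) * (2 * v + 1) ≤ (v' - n + 1) * (2 * v' + 1) :=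
        Nat.mul_le_mul (by omega) (by omega)
      simp only
      split_ifs <;> omega
  · rintro p ⟨n, rfl⟩ v
    show v 0 + v 0 + (if n + 1 ≤ v 0 then (v 0 - (n + 1) + 1) * (2 * v 0 + 1) else 0) <
      n + v 0 + if n ≤ n then (v 0 - n + 1) * (2 * v 0 + 1) else 0
    rw [if_pos le_rfl]
    split_ifs with hc
    · have e : v 0 - n + 1 = (v 0 - (n + 1) + 1) + 1 := by omega
      rw [e, add_mul (v 0 - (n + 1) + 1) 1]
      omega
    · have e : v 0 - n + 1 = 1 := by omega
      rw [e]
      omega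

def fun2 (G : Om → Om → Om) (h : Om → (ℕ ↪ Om) → ℕ → Om × Om → Om) :
    {n : ℕ} → F2 n → (Fin n → Om) → Om
  | _, F2.d ξ, _ => ξ
  | _, F2.g ξ, w => G ξ (w 0)
  | _, F2.h η s k, w => h η s k (w 0, w 1)

theorem tot2 : TotTerm R2 := by
  obtain ⟨G, hG, hh⟩ := exists_G
  choose h hh1 hh2 using hh
  refine totTerm_of_model R2 Om ⟨fun f w => fun2 G h f w, fun _ _ => False⟩ ⟨?_, ?_⟩
  · intro n f ws i a b hab
    cases f with
    | d ξ => exact i.elim0
    | g ξ =>
      show G ξ (update ws i a 0) < G ξ (update ws i b 0)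
      apply hG
      fin_cases i
      simpa using hab
    | h η s k => exact mono2 _ (hh1 η s k) ws i a b hab
  · rintro p ⟨⟨η, s, k⟩, rfl⟩ v
    exact hh2 η s k (v 0)

theorem weak2 {W : Type} [LinearOrder W] (φ : (Fin 2 → W) → W)
    (hφ : ∀ (ws : Fin 2 → W) (i : Fin 2) (a b : W), a < b →
      φ (update ws i a) < φ (update ws i b)) (a a' b b' : W) (ha : a ≤ a') (hb : b ≤ b') :
    φ ![a, b] ≤ φ ![a', b'] := by
  have e0 : ∀ x y z : W, update ![x, y] 0 z = ![z, y] := fun x y z => by
    funext j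
    fin_cases j <;> simp
  have e1 : ∀ x y z : W, update ![x, y] 1 z = ![x, z] := fun x y z => by
    funext j
    fin_cases j <;> simp
  have h1 : φ ![a, b] ≤ φ ![a', b] := by
    rcases ha.lt_or_eq with h | h
    · have := hφ ![a, b] 0 a a' h
      rw [e0, e0] at this
      exact this.le
    · rw [h]
  have h2 : φ ![a', b] ≤ φ ![a', b'] := by
    rcases hb.lt_or_eq with h | h
    · have := hφ ![a', b] 1 b b' h
      rw [e1, e1] at this
      exact this.le
    · rw [h]
  exact h1.trans h2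

theorem no_chain {W : Type} [LinearOrder W] [WellFoundedLT W] (x : ℕ → W)
    (h : ∀ n, x (n + 1) < x n) : False :=
  (RelEmbedding.natGT (r := (· < ·)) x h).not_wellFounded wellFounded_lt

theorem not_tot : ¬ TotTerm (union R1 R2) := by
  intro ht
  obtain ⟨o, w, ⟨m, r⟩, -⟩ := model_of_totTerm _ ht
  let S := termStr (L1.sum L2)
  let cc : ℕ → Ground (L1.sum L2) := fun n => S.funMap (n := 0) (Sum.inl (F1.c n)) ![]
  let ff : ℕ → (Fin 2 → Ground (L1.sum L2)) → Ground (L1.sum L2) :=
    fun n => S.funMap (n := 2) (Sum.inl (F1.f n))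
  let dd : Om → Ground (L1.sum L2) := fun ξ => S.funMap (n := 0) (Sum.inr (F2.d ξ)) ![]
  let gg : Om → Ground (L1.sum L2) → Ground (L1.sum L2) :=
    fun ξ x => S.funMap (n := 1) (Sum.inr (F2.g ξ)) ![x]
  let hh : Om → (ℕ ↪ Om) → ℕ → (Fin 2 → Ground (L1.sum L2)) → Ground (L1.sum L2) :=
    fun η s k => S.funMap (n := 2) (Sum.inr (F2.h η s k))
  have e0 : ∀ u : Fin 0 → Ground (L1.sum L2), u = ![] := fun u => Subsingleton.elim _ _
  have e1 : ∀ u : Fin 1 → Ground (L1.sum L2), u = ![u 0] := fun u => by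
    funext j
    fin_cases j
    rfl
  have e2 : ∀ u : Fin 2 → Ground (L1.sum L2), u = ![u 0, u 1] := fun u => by
    funext j
    fin_cases j <;> rfl
  have r1 : ∀ n x, ff (n + 1) ![x, x] < ff n ![cc n, x] := by
    intro n x
    have := r _ (Or.inl ⟨_, ⟨n, rfl⟩, rfl⟩) (fun _ => x)
    convert this using 1
    · show ff (n + 1) _ = ff (n + 1) _
      congr 1
      refine Eq.trans ?_ (e2 _).symm
      rfl
    · show ff n _ = ff n _
      congr 1
      refine Eq.trans ?_ (e2 _).symm
      congr 1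
      show cc n = S.funMap _ _
      rw [e0 (fun _ => _)]
      rfl
  have r2 : ∀ η s k x, hh η s (k + 1) ![x, gg η x] < hh η s k ![dd (s k), gg (s k) x] := by
    intro η s k x
    have := r _ (Or.inr ⟨_, ⟨(η, s, k), rfl⟩, rfl⟩) (fun _ => x)
    convert this using 1
    · show hh η s (k + 1) _ = hh η s (k + 1) _
      congr 1
      refine Eq.trans ?_ (e2 _).symm
      congr 2
      show gg η x = S.funMap _ _
      rw [e1 (fun _ => _)]
      rfl
    · show hh η s k _ = hh η s k _
      congr 1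
      refine Eq.trans ?_ (e2 _).symm
      congr 1
      · show dd (s k) = S.funMap _ _
        rw [e0 (fun _ => _)]
        rfl
      · congr 1
        show gg (s k) x = S.funMap _ _
        rw [e1 (fun _ => _)]
        rfl
  have a1 : ∀ x, ∃ n, x < cc n := by
    intro x
    by_contra hc
    push Not at hc
    exact no_chain (fun n => ff n ![x, x]) (fun n => (r1 n x).trans_le
      (weak2 (ff n) (m 2 _) _ _ _ _ (hc n) le_rfl))
  have a2 : ∀ x η, {ξ | dd ξ ≤ x ∧ gg ξ x ≤ gg η x}.Finite := by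
    intro x η
    by_contra hc
    have hi : {ξ | dd ξ ≤ x ∧ gg ξ x ≤ gg η x}.Infinite := hc
    let s : ℕ ↪ Om := (hi.natEmbedding _).trans (Embedding.subtype _)
    have hs : ∀ k, dd (s k) ≤ x ∧ gg (s k) x ≤ gg η x := fun k => (hi.natEmbedding _ k).2
    exact no_chain (fun k => hh η s k ![x, gg η x]) (fun k => (r2 η s k x).trans_le
      (weak2 (hh η s k) (m 2 _) _ _ _ _ (hs k).1 (hs k).2))
  have a3 : ∀ x, {ξ | dd ξ ≤ x}.Countable := by
    intro x
    by_contra hc
    have hi : {ξ | dd ξ ≤ x}.Infinite := fun hf => hc hf.countable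
    let s := hi.natEmbedding _
    have hcu : (⋃ k, {ξ | dd ξ ≤ x ∧ gg ξ x ≤ gg (s k) x}).Countable :=
      Set.countable_iUnion fun k => (a2 x _).countable
    have hns : ¬ {ξ | dd ξ ≤ x} ⊆ ⋃ k, {ξ | dd ξ ≤ x ∧ gg ξ x ≤ gg (s k) x} :=
      fun hsub => hc (hcu.mono hsub)
    obtain ⟨η, hη1, hη2⟩ := Set.not_subset.mp hns
    have hinf : (Set.range fun k => (s k : Om)).Infinite :=
      Set.infinite_range_of_injective (fun a b e => s.injective (Subtype.ext e))
    refine hinf ((a2 x η).subset ?_)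
    rintro _ ⟨k, rfl⟩
    refine ⟨(s k).2, ?_⟩
    by_contra hlt
    exact hη2 (Set.mem_iUnion.mpr ⟨k, hη1, (not_le.mp hlt).le⟩)
  apply om_unc
  refine (Set.countable_iUnion fun n => a3 (cc n)).mono ?_
  intro ξ _
  obtain ⟨n, hn⟩ := a1 (dd ξ)
  exact Set.mem_iUnion.mpr ⟨n, hn.le⟩

theorem result :
    (∀ (L₁ L₂ : Sig), Countable (Σ n, L₁.Functions n) →
      Countable (Σ n, L₂.Functions n) → ∀ (R₁ : Rules L₁) (R₂ : Rules L₂),
        TotTerm R₁ → TotTerm R₂ → TotTerm (union R₁ R₂)) ∧
    ∃ (L₁ L₂ : Sig) (R₁ : Rules L₁) (R₂ : Rules L₂),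
      Countable (Σ n, L₁.Functions n) ∧ ¬ Countable (Σ n, L₂.Functions n) ∧
      IsTRS R₁ ∧ IsTRS R₂ ∧ HasDup R₁ ∧ HasDup R₂ ∧ TotTerm R₁ ∧ TotTerm R₂ ∧
      ¬ TotTerm (union R₁ R₂) := by
  refine ⟨fun L₁ L₂ _ _ R₁ R₂ h₁ h₂ => modular L₁ L₂ R₁ R₂ h₁ h₂, L1, L2, R1, R2, ?_, ?_, ?_, ?_,
    ?_, ?_, tot1, tot2, not_tot⟩
  · let φ : ℕ ⊕ ℕ → Σ n, L1.Functions n := Sum.elim (fun k => ⟨0, F1.c k⟩) (fun k => ⟨2, F1.f k⟩)
    refine Function.Surjective.countable (f := φ) ?_
    rintro ⟨n, f⟩
    cases f with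
    | c k => exact ⟨Sum.inl k, rfl⟩
    | f k => exact ⟨Sum.inr k, rfl⟩
  · intro hc
    apply om_unc
    have hinj : Function.Injective (fun ξ : Om => (⟨0, F2.d ξ⟩ : Σ n, L2.Functions n)) := by
      intro a b e
      have e' := eq_of_heq (Sigma.mk.inj e).2
      cases e'
      rfl
    have := hinj.countable
    exact Set.countable_univ
  · rintro p ⟨n, rfl⟩
    refine ⟨fun x e => (by cases e), fun x => ?_⟩
    simp only [occ, Fin.sum_univ_two, Matrix.cons_val_zero, Matrix.cons_val_one,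
      Finset.univ_eq_empty, Finset.sum_empty]
    omega
  · rintro p ⟨⟨η, s, k⟩, rfl⟩
    refine ⟨fun x e => (by cases e), fun x => ?_⟩
    simp only [occ, Fin.sum_univ_two, Fin.sum_univ_one, Matrix.cons_val_zero, Matrix.cons_val_one,
      Finset.univ_eq_empty, Finset.sum_empty]
    omega
  · refine ⟨_, ⟨0, rfl⟩, 0, ?_⟩
    simp [occ]
  · obtain ⟨η⟩ : Nonempty Om := inferInstance
    have hi : (Set.univ : Set Om).Infinite := fun hf => om_unc hf.countable
    refine ⟨_, ⟨(η, (hi.natEmbedding _).trans (Embedding.subtype _), 0), rfl⟩, 0, ?_⟩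
    simp [occ]

end Pool.Agent.Results.MP_8e1749_lc.Modular
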